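import Mathlib
import Pool.Agent.U150.XG.Law
import Pool.Agent.Results.MP_7c08ba_nt.HeckeCharactersAllWeights

/-!
# The Bloch–Kato Selmer groups of all weights of the successive prime twists of the Hecke characters
# of `ℚ(√-7)`

`K = ℚ(√-7) = ℚ(w)`, `w² = w - 2`. Let `E_M` be the quadratic twist by `M` of `X_0(49)`, an elliptic
curve over `ℚ` with complex multiplication by `ℤ[w]`, `ψ_M` its Hecke character over `K`. For `k > 0`
the Hecke characters `ψ_M^k ψ̄_M^(1-k)` and `ψ_M^(1-k) ψ̄_M^k`, normalized, are the two conjugate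
automorphic representations `π` of `GL_1` over `K` with `π^∨ = π^c |·|^(-1)` whose `L`-function is the
one of the newform of weight `2k` of `ψ_M^(2k-1)`; `ℚ_2(κ^k κ'^(1-k))` and `ℚ_2(κ^(1-k) κ'^k)` are
their `2`-adic realizations, `κ`, `κ'` the characters of `Gal(ℚ̄/K)` on the `2`-adic Tate module of
`E_M`. See `HeckeCharactersAllWeights` (whose definitions we use): if `E_M(ℚ)` is finite and
`Ш(E_M/ℚ)` has no element of order two then for all `k > 0` the dimension of the Bloch–Kato Selmer group
of `π` is at most the order of vanishing forced by the root number, `0` for `k` odd and `1` for `k` even.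

Here `D` is ANY product of different primes which are `1 mod 8` and split in `K` or `5 mod 8` and
inert in `K` (a fixed number), and we twist it successively by primes of the two kinds in any given
order, the last twist being by an inert prime: `M = D p_k ⋯ p_0`. We take means over the primes `p_0`
up to `X`, `X → ∞` (the order of the conductors of the `π`), then over `p_1`, …, at last over `p_k`.
We prove, for every `D`:

* the iterated density of the `M` with `E_M(ℚ)` finite and `Ш(E_M/ℚ)[2] = 0` exists, and is the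
  probability of `0` after `t` steps of the Markov chain `r → r - 1` with probability `1 - 2 ^ -r`,
  `r → r` and `r → r + 1` with probability `2 ^ -(r + 1)`, `t` the number of the split primes among the
  `p_i`; the first law is that of the corank of `A + Y`, `A` the explicit matrix of the quadratic and
  quartic symbols of `D` over the field with two elements, `Y` a random diagonal matrix;
* the Bloch–Kato Selmer groups of the Hecke characters of all weights attached to `M` have
  dimension at most the order of vanishing forced by the root number, with at least this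
  iterated lower density;
* this is at least `2 ^ -(n + t)`, `n` the number of the split primes of `D`: for every `D` a positive
  proportion of the prime twists `D p` has the property;
* it differs from `c = ∏ (1 - 2^{-(2i+1)}) = 0.419…` by at most `∏_{1 ≤ i ≤ n} (2 ^ i - 1) / 2 ^ t`.

Authors: helper150 (this file and `U150/XG`), helper687 (the Markov chain of the symmetric matrices
over the field with two elements, `U687/Q2`), and the authors of the descent and of the Selmer groups
(`HeckeCharactersAllWeights`, `MP_787500_nt.AllWeightsMultiquadraticX49`).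
-/

set_option autoImplicit false

open scoped Classical ENNReal

namespace Pool.Agent.Results.MP_7c08ba_nt.AllWeightsPrimeTwists

open Filter Matrix
open Pool.Agent.Results.MP_787500_nt.AllWeightsMultiquadraticX49 (RankZeroShaTwo Adm)
open Pool.Agent.Results.MP_7c08ba_nt.HeckeCharactersAllWeights (Bounded)

/-- the primes `1 mod 8` that are split in `K = ℚ(√-7)` -/
def Split (p : ℕ) : Prop := p % 8 = 1 ∧ (p % 7 = 1 ∨ p % 7 = 2 ∨ p % 7 = 4)

/-- the primes `5 mod 8` that are inert in `K` -/
def Inert (p : ℕ) : Prop := p % 8 = 5 ∧ (p % 7 = 3 ∨ p % 7 = 5 ∨ p % 7 = 6)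

/-- the products of different primes of the two kinds -/
def Member (D : ℕ) : Prop := Squarefree D ∧ ∀ p ∈ D.primeFactors, Split p ∨ Inert p

/-- the kind of the prime: split (`true`) or inert (`false`) -/
def Kind : Bool → ℕ → Prop
  | true, p => Split p
  | false, p => Inert p

/-- the residue modulo `8` of the primes of the kind -/
def residue : Bool → ℕ
  | true => 1
  | false => 5

/-- the primes up to `X` of the kind `s` -/
def primes (s : Bool) (X : ℕ) : Set ℕ := {p : ℕ | p.Prime ∧ Kind s p ∧ p ≤ X}

/-- the mean over the primes up to `X` of the kind `s`; those that divide `D` are left out -/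
noncomputable def average (s : Bool) (D : ℕ) (T : ℕ → ℝ≥0∞) (X : ℕ) : ℝ≥0∞ :=
  (∑ᶠ p ∈ {p : ℕ | p ∈ primes s X ∧ ¬ p ∣ D}, T p) / ((primes s X).ncard : ℝ≥0∞)

/-- the iterated lower means of `T (D p_{k-1} ⋯ p_0)`, `p_i` of the kind `κ i` -/
noncomputable def lowerMean (κ : ℕ → Bool) (T : ℕ → ℝ≥0∞) : ℕ → ℕ → ℝ≥0∞
  | 0, D => T D
  | k + 1, D => liminf (average (κ k) D (fun p => lowerMean κ T k (D * p))) atTop

/-- the iterated upper means of `T (D p_{k-1} ⋯ p_0)`, `p_i` of the kind `κ i` -/
noncomputable def upperMean (κ : ℕ → Bool) (T : ℕ → ℝ≥0∞) : ℕ → ℕ → ℝ≥0∞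
  | 0, D => T D
  | k + 1, D => limsup (average (κ k) D (fun p => upperMean κ T k (D * p))) atTop

/-- `1` if `M` has the property `P`, and `0` if not -/
noncomputable def indicator (P : ℕ → Prop) (M : ℕ) : ℝ≥0∞ := if P M then 1 else 0

/-- the iterated density of the `M = D p_k ⋯ p_0` with the property `P` is `x`: the iterated lower
and upper means of the indicator are `x` -/
def Density (κ : ℕ → Bool) (P : ℕ → Prop) (k D : ℕ) (x : ℝ) : Prop :=
  lowerMean κ (indicator P) (k + 1) D = ENNReal.ofReal x ∧
    upperMean κ (indicator P) (k + 1) D = ENNReal.ofReal x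

/-- the split prime factors of `D` -/
noncomputable def split (D : ℕ) : Finset ℕ := D.primeFactors.filter fun p => Split p

/-- `1` if `m` is not a square modulo `p`, and `0` if it is -/
noncomputable def nonsq (p m : ℕ) : ZMod 2 := if IsSquare (m : ZMod p) then 0 else 1

/-- `1` if `-7` is not a fourth power modulo `p`, and `0` if it is -/
noncomputable def quartic (p : ℕ) : ZMod 2 := if ∃ y : ZMod p, y ^ 4 = -7 then 0 else 1

/-- The matrix over the field with two elements, with rows and columns indexed by the split prime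
factors of `D`: the entry at `(i, j)` is `nonsq i j` for `i ≠ j`, and the entry at `(i, i)` is the sum
of `quartic i` and of the `nonsq i l` for all the prime factors `l ≠ i` of `D`. -/
noncomputable def mat (D : ℕ) : Matrix (split D) (split D) (ZMod 2) :=
  Matrix.of fun i j =>
    if i = j then quartic i + ∑ l ∈ D.primeFactors.erase i, nonsq i l else nonsq i j

/-- the share of the diagonals `y` for which the matrix of `D` plus `y` has corank `r` -/
noncomputable def law (D : ℕ) (r : ℕ) : ℝ :=
  (Nat.card {y : split D → ZMod 2 // (mat D + diagonal y).rank + r = (split D).card} : ℝ) /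
    2 ^ (split D).card

/-- one step of the Markov chain: from `r` to `r - 1` with probability `1 - 2 ^ -r`, to `r` and to
`r + 1` with probability `2 ^ -(r + 1)` each -/
noncomputable def markov (p : ℕ → ℝ) (r : ℕ) : ℝ :=
  (1 - (1 / 2) ^ (r + 1)) * p (r + 1) + (1 / 2) ^ (r + 1) * p r +
    (if r = 0 then 0 else (1 / 2) ^ r * p (r - 1))

/-- the number of the split primes among the primes of the kinds `κ 1`, …, `κ k` -/
def splitSteps (κ : ℕ → Bool) (k : ℕ) : ℕ :=
  ((Finset.range k).filter fun i => κ (i + 1) = true).card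

/-- the law after the steps of the split primes -/
noncomputable def chain (κ : ℕ → Bool) (k D : ℕ) : ℕ → ℝ := markov^[splitSteps κ k] (law D)

/-- `(1 - 1/2) (1 - 1/8) (1 - 1/32) ⋯` -/
noncomputable def c : ℝ := ∏' i : ℕ, (1 - (1 / 2 : ℝ) ^ (2 * i + 1))

section proof

open Finset
open Pool.Agent.U150.XG (En MM exists_en lo up ns Dat lo_main up_main PR SR pf_mul)
open Pool.Agent.U150.RG (mE)
open Pool.Agent.U687.Q2 (pt UU TT mu ph cor prob)
open Pool.Agent.Y698.SG (n4)

theorem kind_mod (s : Bool) (p : ℕ) : Kind s (p % 56) ↔ Kind s p := by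
  have h8 : p % 56 % 8 = p % 8 := by omega
  have h7 : p % 56 % 7 = p % 7 := by omega
  cases s
  · show Inert (p % 56) ↔ Inert p
    unfold Inert
    rw [h8, h7]
  · show Split (p % 56) ↔ Split p
    unfold Split
    rw [h8, h7]

theorem not_both {p : ℕ} (h : Split p) : ¬ Inert p := by
  intro h'
  have h1 := h.1
  have h2 := h'.1
  omega

theorem kind_or {s : Bool} {p : ℕ} (h : Kind s p) : Split p ∨ Inert p := by
  cases s
  · exact Or.inr h
  · exact Or.inl h

theorem kind_res {s : Bool} {p : ℕ} (h : Kind s p) : p % 8 = residue s := by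
  cases s
  · exact (show Inert p from h).1
  · exact (show Split p from h).1

/-- the state -/
def Inv (κ : ℕ → Bool) (k D : ℕ) : Prop :=
  Member D ∧ (D * ∏ i ∈ Finset.range k, residue (κ i)) % 8 = 1

theorem dat (κ : ℕ → Bool) (h0 : κ 0 = false) :
    Dat 56 Split (fun k l => Kind (κ k) l) (fun k => κ k = true) (Inv κ) := by
  refine ⟨by norm_num, fun p _ h => ?_, fun p hp h h56 => ?_, fun k => ?_, fun k p _ h => ?_, ?_,
    fun k D h => h.1.1.ne_zero, ?_⟩
  · have := h.1
    omega
  · have h1 : p ∣ 2 ^ 3 * 7 := h56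
    rcases (Nat.Prime.dvd_mul hp).1 h1 with h2 | h2
    · have h3 := (Nat.prime_dvd_prime_iff_eq hp Nat.prime_two).1 (hp.dvd_of_dvd_pow h2)
      have := h.1
      omega
    · have h3 := (Nat.prime_dvd_prime_iff_eq hp (by norm_num)).1 h2
      have := h.1
      omega
  · refine ⟨fun u => Kind (κ k) (u : ZMod 56).val, ?_, fun p _ _ u hu => ?_⟩
    · cases hk : κ k
      · refine ⟨ZMod.unitOfCoprime 5 (by norm_num), ?_⟩
        show Kind false ((ZMod.unitOfCoprime 5 (by norm_num) : (ZMod 56)ˣ) : ZMod 56).val
        rw [ZMod.coe_unitOfCoprime]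
        have h5 : ((5 : ℕ) : ZMod 56).val = 5 := rfl
        rw [h5]
        exact ⟨by norm_num, by norm_num⟩
      · refine ⟨1, ?_⟩
        show Kind true (((1 : (ZMod 56)ˣ) : ZMod 56)).val
        rw [Units.val_one]
        have h5 : (1 : ZMod 56).val = 1 := rfl
        rw [h5]
        exact ⟨by norm_num, by norm_num⟩
    · show Kind (κ k) p ↔ Kind (κ k) (u : ZMod 56).val
      rw [hu, ZMod.val_natCast, kind_mod]
  · show Split p ↔ κ k = true
    have h' : Kind (κ k) p := h
    cases hk : κ k
    · rw [hk] at h'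
      exact ⟨fun h1 => absurd h' (not_both h1), fun h1 => absurd h1 (by simp)⟩
    · rw [hk] at h'
      exact ⟨fun _ => rfl, fun _ => h'⟩
  · show ¬ κ 0 = true
    rw [h0]
    simp
  · intro k D l ⟨h1, h3⟩ hl hC hlD
    have hco : D.Coprime l := ((hl.coprime_iff_not_dvd).2 hlD).symm
    refine ⟨⟨(Nat.squarefree_mul hco).2 ⟨h1.1, hl.prime.squarefree⟩, fun p hp => ?_⟩, ?_⟩
    · rw [pf_mul h1.1.ne_zero hl, Finset.mem_insert] at hp
      rcases hp with rfl | hp
      · exact kind_or hC
      · exact h1.2 p hp
    · rw [Finset.prod_range_succ] at h3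
      have e1 : D * ((∏ i ∈ Finset.range k, residue (κ i)) * residue (κ k)) =
          (D * ∏ i ∈ Finset.range k, residue (κ i)) * residue (κ k) := by ring
      have e2 : D * l * ∏ i ∈ Finset.range k, residue (κ i) =
          (D * ∏ i ∈ Finset.range k, residue (κ i)) * l := by ring
      have e3 : residue (κ k) % 8 = residue (κ k) := by
        cases κ k <;> rfl
      rw [e1] at h3
      rw [e2, Nat.mul_mod, kind_res hC, ← e3, ← Nat.mul_mod]
      exact h3

theorem adm_of {κ : ℕ → Bool} {D : ℕ} (h : Inv κ 0 D) : Adm D := by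
  obtain ⟨h1, h2⟩ := h
  rw [Finset.range_zero, Finset.prod_empty, mul_one] at h2
  exact ⟨h1.1, h2, fun p hp hd => h1.2 p (hp.mem_primeFactors hd h1.1.ne_zero)⟩

/-- the enumeration -/
noncomputable def eqs {D n : ℕ} {P : Fin n → ℕ} (h : En Split D n P) :
    Fin n ≃ {x // x ∈ split D} := h.eq

theorem mat_sub {D n : ℕ} {P : Fin n → ℕ} (h : En Split D n P) :
    MM n4 D P = (mat D).submatrix (eqs h) (eqs h) := by
  ext i j
  rw [Matrix.submatrix_apply]
  have hR : mat D (eqs h i) (eqs h j) = if eqs h i = eqs h j then quartic (P i) +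
      ∑ l ∈ D.primeFactors.erase (P i), nonsq (P i) l else nonsq (P i) (P j) := rfl
  rw [hR]
  unfold MM
  rw [Matrix.of_apply]
  by_cases hij : i = j
  · subst hij
    rw [if_pos rfl, if_pos rfl]
    rfl
  · rw [if_neg hij, if_neg (fun h' => hij ((eqs h).injective h'))]
    rfl

/-- the matrix of the descent -/
theorem det_iff {D n : ℕ} {P : Fin n → ℕ} (hD : Member D) (h : En Split D n P) :
    (Pool.Agent.Y698.SG.mat (D.primeFactors.filter fun p => p % 8 ≠ 1)
      (D.primeFactors.filter fun p => p % 8 = 1)).det ≠ 0 ↔ cor (MM n4 D P) = 0 := by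
  have hf : (D.primeFactors.filter fun p => p % 8 = 1) = split D := by
    ext p
    rw [Finset.mem_filter, split, Finset.mem_filter]
    refine and_congr_right fun hp => ⟨fun h8 => ?_, fun h8 => h8.1⟩
    rcases hD.2 p hp with h1 | h1
    · exact h1
    · have := h1.1
      omega
  rw [hf]
  set Q := D.primeFactors.filter fun p => p % 8 ≠ 1 with hQ
  have hdj : Disjoint Q (split D) := by
    rw [Finset.disjoint_left]
    intro p h1 h2
    exact (Finset.mem_filter.1 h1).2 (Finset.mem_filter.1 h2).2.1
  have hu : D.primeFactors = Q ∪ split D := by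
    rw [← hf, hQ, Finset.union_comm]
    exact (Finset.filter_union_filter_not_eq _ _).symm
  have hm : mat D = Pool.Agent.Y698.SG.mat Q (split D) := by
    ext i j
    have hL : mat D i j = if i = j then quartic i +
      ∑ l ∈ D.primeFactors.erase i, nonsq i l else nonsq i j := rfl
    have hR : Pool.Agent.Y698.SG.mat Q (split D) i j = if i = j then n4 i +
      ∑ q ∈ Q, Pool.Agent.Y698.SG.nq i q +
      ∑ p ∈ (split D).erase i, Pool.Agent.Y698.SG.nq i p else Pool.Agent.Y698.SG.nq i j := rfl
    rw [hL, hR]
    by_cases hij : i = j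
    · rw [if_pos hij, if_pos hij]
      have h1 : D.primeFactors.erase (i : ℕ) = Q ∪ (split D).erase i := by
        conv_lhs => rw [hu]
        rw [Finset.erase_union_distrib, Finset.erase_eq_of_notMem
          (fun h' => Finset.disjoint_left.1 hdj h' i.2)]
      rw [h1, Finset.sum_union (Finset.disjoint_of_subset_right (Finset.erase_subset _ _) hdj),
        ← add_assoc]
      rfl
    · rw [if_neg hij, if_neg hij]
      rfl
  rw [← hm, Pool.Agent.U687.Q2.cor_zero_iff, mat_sub h, Matrix.det_submatrix_equiv_self]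

/-- the descent -/
theorem good_iff {κ : ℕ → Bool} {D n : ℕ} {P : Fin n → ℕ} (hD : Inv κ 0 D) (h : En Split D n P) :
    RankZeroShaTwo D ↔ cor (MM n4 D P) = 0 := by
  have hA := (Pool.Agent.Results.MP_787500_nt.AllWeightsMultiquadraticX49.adm_iff D).1 (adm_of hD)
  rw [Pool.Agent.Results.MP_787500_nt.AllWeightsMultiquadraticX49.good_iff hA.1,
    Pool.Agent.R428.Q0.gd_iff]
  exact det_iff hD.1 h

/-- the classes of the steps -/
abbrev CC (κ : ℕ → Bool) (k l : ℕ) : Prop := Kind (κ k) l

theorem lowerMean_eq (κ : ℕ → Bool) (T : ℕ → ℝ≥0∞) (k : ℕ) :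
    ∀ D, lowerMean κ T k D = lo (CC κ) T k D := by
  induction k with
  | zero => intro D; rfl
  | succ k ih =>
    intro D
    have h : (fun p => lowerMean κ T k (D * p)) = fun p => lo (CC κ) T k (D * p) :=
      funext fun p => ih _
    show liminf (average (κ k) D (fun p => lowerMean κ T k (D * p))) atTop =
      liminf (mE (PR (CC κ k)) (SR (CC κ k) D) (fun l => lo (CC κ) T k (D * l))) atTop
    rw [h]
    rfl

theorem upperMean_eq (κ : ℕ → Bool) (T : ℕ → ℝ≥0∞) (k : ℕ) :
    ∀ D, upperMean κ T k D = up (CC κ) T k D := by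
  induction k with
  | zero => intro D; rfl
  | succ k ih =>
    intro D
    have h : (fun p => upperMean κ T k (D * p)) = fun p => up (CC κ) T k (D * p) :=
      funext fun p => ih _
    show limsup (average (κ k) D (fun p => upperMean κ T k (D * p))) atTop =
      limsup (mE (PR (CC κ k)) (SR (CC κ k) D) (fun l => up (CC κ) T k (D * l))) atTop
    rw [h]
    rfl

theorem lower_le_upper (κ : ℕ → Bool) (T : ℕ → ℝ≥0∞) (k : ℕ) :
    ∀ D, lowerMean κ T k D ≤ upperMean κ T k D := by
  induction k with
  | zero => intro D; exact le_rfl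
  | succ k ih =>
    intro D
    refine (liminf_le_limsup).trans (limsup_le_limsup (Eventually.of_forall fun X => ?_))
    exact Pool.Agent.U150.RG.mE_mono (P := PR (CC κ k)) (S := SR (CC κ k) D)
      (fun X => (Pool.Agent.U150.XG.PR_fin _ X).subset (Pool.Agent.U150.XG.SR_sub _ _ X))
      (fun X p _ => ih _) X

/-- the first law -/
theorem law_mu {D n : ℕ} {P : Fin n → ℕ} (h : En Split D n P) (r : ℕ) :
    law D r = mu (MM n4 D P) r := by
  rw [Pool.Agent.U687.Q2.mu_share]
  have hn : (split D).card = n := h.card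
  unfold law
  rw [hn]
  congr 2
  refine Nat.card_congr ((Equiv.arrowCongr (eqs h).symm (Equiv.refl (ZMod 2))).subtypeEquiv
    fun y => ?_)
  have h1 : MM n4 D P + diagonal (Equiv.arrowCongr (eqs h).symm (Equiv.refl (ZMod 2)) y) =
      (mat D + diagonal y).submatrix (eqs h) (eqs h) := by
    rw [mat_sub h]
    ext i j
    rw [Matrix.submatrix_apply, Matrix.add_apply, Matrix.add_apply, Matrix.submatrix_apply,
      Matrix.diagonal_apply, Matrix.diagonal_apply]
    congr 1
    by_cases hij : i = j
    · subst hij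
      rw [if_pos rfl, if_pos rfl]
      rfl
    · rw [if_neg hij, if_neg (fun h' => hij ((eqs h).injective h'))]
  rw [h1, Matrix.rank_submatrix]

theorem chain_eq (κ : ℕ → Bool) (k : ℕ) {D n : ℕ} {P : Fin n → ℕ} (h : En Split D n P) :
    chain κ k D = TT^[ns (fun i => κ i = true) k] (mu (MM n4 D P)) := by
  have h1 : law D = mu (MM n4 D P) := funext fun r => law_mu h r
  have h2 : splitSteps κ k = ns (fun i => κ i = true) k := by
    unfold splitSteps ns
    congr 1
    ext i
    simp only [Finset.mem_filter]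
  unfold chain
  rw [h1, h2]
  rfl

theorem c_eq : c = prob 0 := by
  rw [Pool.Agent.U687.Q2.prob_zero]
  rfl

/-- a property implied by `RankZeroShaTwo` -/
theorem low_of {κ : ℕ → Bool} (h0 : κ 0 = false) (Pr : ℕ → Prop)
    (hT : ∀ N, Adm N → RankZeroShaTwo N → Pr N) (k : ℕ)
    {D : ℕ} (hD : Member D) (hR : (D * ∏ i ∈ Finset.range (k + 1), residue (κ i)) % 8 = 1) :
    ENNReal.ofReal (chain κ k D 0) ≤ lowerMean κ (indicator Pr) (k + 1) D := by
  obtain ⟨P, h⟩ := exists_en Split D
  rw [lowerMean_eq, chain_eq κ k h, ← Pool.Agent.U150.XG.law_eq]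
  refine lo_main n4 (dat κ h0) (indicator Pr) (pt 0) (Pool.Agent.U687.Q2.pt_nonneg 0)
    (fun N m P' hI hE => ?_) k D _ P ⟨hD, hR⟩ h
  unfold indicator pt
  by_cases hc : cor (MM n4 N P') = 0
  · rw [if_pos hc, if_pos (hT N (adm_of hI) ((good_iff hI hE).2 hc)), ENNReal.ofReal_one]
  · rw [if_neg hc, ENNReal.ofReal_zero]
    exact zero_le

theorem up_of {κ : ℕ → Bool} (h0 : κ 0 = false) (k : ℕ)
    {D : ℕ} (hD : Member D) (hR : (D * ∏ i ∈ Finset.range (k + 1), residue (κ i)) % 8 = 1) :
    upperMean κ (indicator RankZeroShaTwo) (k + 1) D ≤ ENNReal.ofReal (chain κ k D 0) := by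
  obtain ⟨P, h⟩ := exists_en Split D
  rw [upperMean_eq, chain_eq κ k h, ← Pool.Agent.U150.XG.law_eq]
  refine up_main n4 (dat κ h0) (indicator RankZeroShaTwo) (pt 0) (Pool.Agent.U687.Q2.pt_nonneg 0)
    (fun N m P' hI hE => ?_) k D _ P ⟨hD, hR⟩ h
  unfold indicator pt
  by_cases hc : cor (MM n4 N P') = 0
  · rw [if_pos hc, if_pos ((good_iff hI hE).2 hc), ENNReal.ofReal_one]
  · rw [if_neg hc, if_neg fun h' => hc ((good_iff hI hE).1 h')]
    exact zero_le

theorem steps_tendsto (κ : ℕ → Bool) (h : ∃ᶠ i in atTop, κ i = true) :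
    Tendsto (splitSteps κ) atTop atTop := by
  have hs : ∀ k, splitSteps κ (k + 1) =
      if κ (k + 1) = true then splitSteps κ k + 1 else splitSteps κ k := by
    intro k
    unfold splitSteps
    rw [Finset.range_add_one, Finset.filter_insert]
    split_ifs with h1
    · rw [Finset.card_insert_of_notMem]
      simp
    · rfl
  have hm : Monotone (splitSteps κ) := monotone_nat_of_le_succ fun k => by
    rw [hs]
    split_ifs <;> omega
  refine tendsto_atTop_atTop_of_monotone hm fun m => ?_
  induction m with
  | zero => exact ⟨0, Nat.zero_le _⟩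
  | succ m ih =>
    obtain ⟨k, hk⟩ := ih
    obtain ⟨j, hj, hR⟩ := (Filter.frequently_atTop.1 h) (k + 1)
    obtain ⟨i, rfl⟩ : ∃ i, j = i + 1 := ⟨j - 1, by omega⟩
    refine ⟨i + 1, ?_⟩
    rw [hs, if_pos hR]
    have := hm (show k ≤ i by omega)
    omega

theorem dist_c (κ : ℕ → Bool) (k D : ℕ) : |chain κ k D 0 - c| ≤
    (∏ i ∈ Finset.range (split D).card, ((2 : ℝ) ^ (i + 1) - 1)) / 2 ^ splitSteps κ k := by
  obtain ⟨P, h⟩ := exists_en Split D
  have h1 := Pool.Agent.U150.XG.law_dist (MM n4 D P) (ns (fun i => κ i = true) k) 1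
  rw [← chain_eq κ k h, Finset.sum_range_one, Finset.sum_range_one, ← c_eq] at h1
  have h2 : splitSteps κ k = ns (fun i => κ i = true) k := by
    unfold splitSteps ns
    congr 1
    ext i
    simp only [Finset.mem_filter]
  rw [h2]
  exact h1

end proof

/-- **The Bloch–Kato Selmer groups of all weights of the successive prime twists.** -/
theorem result (κ : ℕ → Bool) (h0 : κ 0 = false) :
    (∀ (k D : ℕ), Member D → (D * ∏ i ∈ Finset.range (k + 1), residue (κ i)) % 8 = 1 →
      Density κ RankZeroShaTwo k D (chain κ k D 0) ∧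
      ENNReal.ofReal (chain κ k D 0) ≤ lowerMean κ (indicator Bounded) (k + 1) D ∧
      (1 / 2 : ℝ) ^ ((split D).card + splitSteps κ k) ≤ chain κ k D 0 ∧
      |chain κ k D 0 - c| ≤
        (∏ i ∈ Finset.range (split D).card, ((2 : ℝ) ^ (i + 1) - 1)) / 2 ^ splitSteps κ k) ∧
    ((∃ᶠ i in atTop, κ i = true) → ∀ D : ℕ,
      Tendsto (fun k => chain κ k D 0) atTop (nhds c)) ∧
    0.4194 < c ∧ c < 0.4195 := by
  obtain ⟨-, -, -, l1, l2⟩ := Pool.Agent.U687.Q2.lim2_facts
  refine ⟨fun k D hD hR => ⟨?_, ?_, ?_, dist_c κ k D⟩, fun hF D => ?_, l1, l2⟩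
  · have h1 := low_of h0 RankZeroShaTwo (fun N _ h => h) k hD hR
    have h2 := up_of h0 k hD hR
    have h3 := lower_le_upper κ (indicator RankZeroShaTwo) (k + 1) D
    exact ⟨le_antisymm (h3.trans h2) h1, le_antisymm h2 (h1.trans h3)⟩
  · exact low_of h0 Bounded
      Pool.Agent.Results.MP_7c08ba_nt.HeckeCharactersAllWeights.result.1 k hD hR
  · obtain ⟨P, h⟩ := Pool.Agent.U150.XG.exists_en Split D
    have h2 : splitSteps κ k = Pool.Agent.U150.XG.ns (fun i => κ i = true) k := by
      unfold splitSteps Pool.Agent.U150.XG.ns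
      congr 1
      ext i
      simp only [Finset.mem_filter]
    rw [chain_eq κ k h, h2]
    exact Pool.Agent.U150.XG.law_ge _ _
  · have hst := steps_tendsto κ hF
    set B : ℝ := ∏ i ∈ Finset.range (split D).card, ((2 : ℝ) ^ (i + 1) - 1) with hB
    have h2 : Tendsto (fun k => B / 2 ^ splitSteps κ k) atTop (nhds 0) := by
      have h3 : Tendsto (fun m : ℕ => B / 2 ^ m) atTop (nhds 0) := by
        have h4 := (tendsto_pow_atTop_nhds_zero_of_lt_one (r := (1 / 2 : ℝ)) (by norm_num)
          (by norm_num)).const_mul B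
        rw [mul_zero] at h4
        refine h4.congr fun m => ?_
        rw [one_div, inv_pow]
        ring
      exact h3.comp hst
    rw [tendsto_iff_norm_sub_tendsto_zero]
    refine squeeze_zero (fun k => norm_nonneg _) (fun k => ?_) h2
    rw [Real.norm_eq_abs]
    exact dist_c κ k D

end Pool.Agent.Results.MP_7c08ba_nt.AllWeightsPrimeTwists
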