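import Pool.Agent.U80.IQ.Res

/-!
# Base changes of newforms of all weights to the imaginary quadratic fields `ℚ(√(-7 d))`

Let `K = ℚ(√-7)`, `E_M` the quadratic twist by `M` of `X_0(49)` and `f_{M,k}` the newform of weight `2k` of
the Hecke character `ψ_M^{2k-1}` of `K`. For `d` not a square let `F = ℚ(√(-7 d))`; this is an imaginary
quadratic field different from `K`, the base change `π` of `f_{M,k}` to `F` is a cuspidal automorphic
representation of `GL_2(𝔸_F)` which is conjugate self-dual, and for the right normalisation its `2`-adic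
realisation is the restriction `V` to `Gal(ℚ̄/F)` of the representation of `Gal(ℚ̄/ℚ)` induced from
`κ^k κ'^(1-k)`, where `κ`, `κ'` are the characters by which `Gal(ℚ̄/K)` acts on the `2`-adic Tate module of
`E_M`.

For `D` in the class (squarefree, `1 mod 8`, all prime factors `1 mod 8` and split in `K` or `5 mod 8` and
inert in `K`) let the tower primes be the primes `q ≡ 5 mod 8` that are inert in `K` and squares modulo all
the prime factors of `D` that split in `K`; they are infinitely many. We prove: if `E_D(ℚ)` is finite and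
`Ш(E_D/ℚ)` has no element of order two, then for ALL products `d ≠ 1` and `u` of an even number of different
tower primes, with `M = D u` and `F = ℚ(√(-7 d))`:

* `H¹_f(F, V) = 0` for all odd `k > 0`, and `dim H¹_f(F, V) ≤ 2` for all even `k > 0`;
* if `M` is squarefree, then `L(E_M/F, s)` (the Euler product over the places of `F` that do not divide
  `2 (4 A³ + 27 B²)`) is an entire function that does not vanish at `1`: for `k = 1` both sides of the
  conjecture of Bloch and Kato are `0`.

The hypothesis holds for exactly the proportion `c = ∏ (1 - 2^{-(2i+1)}) = 0.4194…` of the `D` of the class.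

The proof: the invariance of the criterion for `D` in the tower (`MP_787500_nt/InfiniteTowersX49`,
`MP_32c55d_nt/InertTowersX49`), the theorem on the Selmer groups over `K(√d)` of the starting file
`AllWeightsMultiquadraticX49` and the descent from `K F = K(√d)` to `F` (`U80/IQ/Sel`); and the Euler product
over `F`, where the quadratic character of `F` may be replaced by the one of `ℚ(√d)`, as `a_p = 0` for the
primes that are inert in `K` (`U80/IQ/Lf`).
-/

set_option autoImplicit false

open scoped Classical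

open NumberField IsDedekindDomain

namespace Pool.Agent.Results.MP_7c08ba_nt.BaseChangeImaginaryQuadratic

open Pool.Agent.Results.MP_787500_nt.AllWeightsMultiquadraticX49
open Pool.Agent.Results.MP_6e2fc3_nt.CMFormsAllWeights

/-- the primes `q ≡ 5 mod 8` that are inert in `ℚ(√-7)` and squares modulo all the prime factors of `D`
that split in `ℚ(√-7)` -/
def TowerPrime (D q : ℕ) : Prop :=
  q.Prime ∧ q % 8 = 5 ∧ (q % 7 = 3 ∨ q % 7 = 5 ∨ q % 7 = 6) ∧
    ∀ p : ℕ, p.Prime → p ∣ D → (p % 7 = 1 ∨ p % 7 = 2 ∨ p % 7 = 4) → IsSquare (q : ZMod p)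

/-- a set of an even number of tower primes -/
def EvenSet (D : ℕ) (S : Finset ℕ) : Prop := (∀ q ∈ S, TowerPrime D q) ∧ Even S.card

/-- `V = Ind χ` is a representation, and any three cocycles of the absolute Galois group of `F = ℚ(s)` in
`V` that satisfy the Bloch–Kato conditions are linearly dependent modulo coboundaries: `H¹_f(F, V)` has
dimension at most `2` -/
def AtMostTwo {w : QBar} (s : Fin 1 → QBar) (χ : Chr w) (c₀ : GQ) : Prop :=
  (∀ σ τ y, ind χ c₀ (σ * τ) y = ind χ c₀ σ (ind χ c₀ τ y)) ∧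
    ∀ b : Fin 3 → GQ → ℚ_[2] × ℚ_[2],
      (∀ i, IsCocycleF s χ c₀ (b i) ∧ IsSelmerF s χ c₀ (b i)) →
        ∃ a : Fin 3 → ℚ_[2], a ≠ 0 ∧ TrivialOnF s χ c₀ Set.univ (∑ i, a i • b i)

/-- The curve `E_M` is over `K` isomorphic to the elliptic curve `ED w (tw M)`, the absolute Galois
group of `K` acts on its `2`-adic Tate module by `κ`, `κ'`, and for `F = ℚ(√(-7 d))` and the
representation `V` of the form of weight `2k`, that is, the one induced from `κ^k κ'^(1-k)`, the group
`H¹_f(F, V)` is zero for all odd `k > 0` and of dimension at most `2` for all even `k > 0`. -/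
def Forms (M d : ℕ) : Prop := ∀ w : QBar, w ^ 2 = w - 2 →
  Iso (EK w M) (ED w (tw M)) ∧ (ED w (tw M)).IsElliptic ∧
  ∃ κ κ' : Chr w, TateModule (tw M) κ κ' ∧
    ∀ s : Fin 1 → QBar, (∀ i, s i ^ 2 = -7 * (d : QBar)) → ∀ c₀ : GQ, c₀ w = 1 - w →
      ∀ k : ℤ, 0 < k → (Odd k → Zero s (chi κ κ' k) c₀) ∧ (Even k → AtMostTwo s (chi κ κ' k) c₀)

/-- the coefficient of `x` -/
def A (D : ℕ) : ℤ := -35 * (D : ℤ) ^ 2

/-- the constant coefficient -/
def B (D : ℕ) : ℤ := -98 * (D : ℤ) ^ 3

/-- `a_v = q_v + 1 - #E(k_v) = q_v - #{(x, y) ∈ k_v² : y² = x³ + a x + b}` -/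
noncomputable def trace {F : Type} [Field F] [NumberField F] (a b : ℤ)
    (v : HeightOneSpectrum (𝓞 F)) : ℤ :=
  ((Ideal.absNorm v.asIdeal : ℕ) : ℤ) -
    ((Nat.card {x : (𝓞 F ⧸ v.asIdeal) × (𝓞 F ⧸ v.asIdeal) //
      x.2 ^ 2 = x.1 ^ 3 + (a : 𝓞 F ⧸ v.asIdeal) * x.1 + (b : 𝓞 F ⧸ v.asIdeal)} : ℕ) : ℤ)

/-- the Euler factor at `v` of `y² = x³ + a x + b`; it is `1` at the places that divide
`2 (4 a³ + 27 b²)` -/
noncomputable def factor {F : Type} [Field F] [NumberField F] (a b : ℤ) (s : ℂ)
    (v : HeightOneSpectrum (𝓞 F)) : ℂ :=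
  if ((2 * (4 * a ^ 3 + 27 * b ^ 2) : ℤ) : 𝓞 F) ∈ v.asIdeal then 1 else
    (1 - ((trace a b v : ℤ) : ℂ) * ((Ideal.absNorm v.asIdeal : ℕ) : ℂ) ^ (-s)
      + ((Ideal.absNorm v.asIdeal : ℕ) : ℂ) ^ (1 - 2 * s))⁻¹

/-- the `L`-function of `E_M` over `F = ℚ(√(-7 d))` is entire and does not vanish at `1` -/
def LNonzero (M d : ℕ) : Prop := ∀ z : ℂ, z ^ 2 = -7 * (d : ℂ) →
  ∃ _ : NumberField (IntermediateField.adjoin ℚ {z}), ∃ Λ : ℂ → ℂ, Differentiable ℂ Λ ∧
    (∀ s : ℂ, (3 : ℝ) / 2 < s.re →
      HasProd (factor (F := IntermediateField.adjoin ℚ {z}) (A M) (B M) s) (Λ s)) ∧ Λ 1 ≠ 0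

/-- the statement for all `M = D ∏_{q ∈ U} q` and all `F = ℚ(√(-7 d))`, `d = ∏_{q ∈ T} q` -/
def AllForms (D : ℕ) : Prop := ∀ U T : Finset ℕ, EvenSet D U → EvenSet D T → T.Nonempty →
  Forms (D * ∏ q ∈ U, q) (∏ q ∈ T, q) ∧
    (Squarefree (D * ∏ q ∈ U, q) → LNonzero (D * ∏ q ∈ U, q) (∏ q ∈ T, q))

/-- **Theorem.** Let `D` be in the class. There are infinitely many tower primes. If `E_D(ℚ)` is finite and
`Ш(E_D/ℚ)` has no element of order two, then for all products `u` and `d ≠ 1` of an even number of different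
tower primes, `M = D u` and `F = ℚ(√(-7 d))`, the groups `H¹_f(F, V)` of the forms of weight `2k` are zero for
all odd `k` and of dimension at most `2` for all even `k`, and, if `M` is squarefree, `L(E_M/F, 1) ≠ 0`. This
is the case for exactly the proportion `c = 0.4194…` of the `D` of the class. -/
theorem result :
    (∀ D : ℕ, Adm D → {q : ℕ | TowerPrime D q}.Infinite ∧ (RankZeroShaTwo D → AllForms D)) ∧
    Filter.Tendsto (prop RankZeroShaTwo) Filter.atTop (nhds c) ∧
    0.4194 < c ∧ c < 0.4195 := by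
  have hc := Pool.Agent.Y948.CQ.t_C2.2.2.2
  exact ⟨fun D hD => ⟨Pool.Agent.Results.MP_787500_nt.InfiniteTowersX49.tp_inf hD,
    Pool.Agent.U80.IQ.all_of hD⟩, Pool.Agent.Results.MP_787500_nt.InfiniteTowersX49.law, hc.1, hc.2⟩

end Pool.Agent.Results.MP_7c08ba_nt.BaseChangeImaginaryQuadratic
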