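import Pool.Agent.U687.PL.Twr
import Pool.Agent.Results.MP_7c08ba_nt.HeckeCharactersAllWeights

/-!
# The Bloch–Kato Selmer groups of all weights, simultaneously for the twists by ALL the divisors and along
# infinite towers, for a positive proportion of the numbers with `K` prime factors, over EVERY base, by size

`L = ℚ(√-7)`. Let `E_M` be the quadratic twist by `M` of `X_0(49)`, an elliptic curve over `ℚ` with complex
multiplication by the integers of `L`, and `ψ_M` its Hecke character over `L`. For `k > 0` the Hecke
characters `ψ_M^k ψ̄_M^(1-k)` and `ψ_M^(1-k) ψ̄_M^k`, normalized, are the two conjugate automorphic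
representations `π` of `GL_1` over `L` with `π^∨ = π^c |·|^(-1)` whose `L`-function is the one of the newform
of weight `2k` of `ψ_M^(2k-1)`; `ℚ_2(κ^k κ'^(1-k))` and `ℚ_2(κ^(1-k) κ'^k)` are their `2`-adic realizations,
`κ`, `κ'` the characters of `Gal(ℚ̄/L)` on the `2`-adic Tate module of `E_M`. `Bounded M` (from the starting
file `HeckeCharactersAllWeights`) says that for ALL `k > 0` the dimension of the Bloch–Kato Selmer group of
`π` is at most the order of vanishing forced by the root number, `0` for `k` odd and `1` for `k` even; it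
holds if `M ≡ 1 mod 8` is in the class below, `E_M(ℚ)` is finite and `Ш(E_M/ℚ)` has no element of order two
(`RankZeroShaTwo M`).

The class: the products of different primes which are `1 mod 8` and split in `L` or `5 mod 8` and inert in
`L`. The tower primes of a member `N` of the class: the (infinitely many) primes `q ≡ 5 mod 8` that are inert
in `L` and squares modulo all the prime factors of `N` that split in `L`. `Built N M`: `M ≡ 1 mod 8` is
squarefree and each of its prime factors divides `N` or is a tower prime of `N`.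

Let `R` be ANY member of the class (the base), `K ≥ 1`, and let `m` run, in the natural order, through
ALL the members of the class with exactly `K` prime factors that are prime to `R`. Put
`N = K (ω(R) + 2) + (K choose 2)`.

* FIXED BASE. For EVERY `R` and all `K ≥ ω(R) + 2` the proportion of the `m` with `RankZeroShaTwo (m d)` for
  ALL the `2 ^ ω(R)` divisors `d` of `R` has a limit, which is POSITIVE and of the form `j / 2 ^ N`, and it is
  a lower bound for the lower density of the `m` for which `Bounded M` holds for ALL the multiples `M` of `m`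
  that are built from `m R`: the `m d u ≡ 1 mod 8`, `d ∣ R`, `u` a product of tower primes of `m R`.
* ALL THE DIVISORS OF `m R`. If `RankZeroShaTwo d` for all the divisors `d` of `R`, then for EVERY `K ≥ 1` the
  proportion of the `m` with `RankZeroShaTwo d` for ALL the `2 ^ (K + ω(R))` divisors `d` of `m R` has a limit,
  POSITIVE and of the form `j / 2 ^ N`, and it is a lower bound for the lower density of the `m` with
  `Bounded M` for ALL the `M` built from `m R`: the `d u ≡ 1 mod 8`, `d ∣ m R`, `u` a product of tower primes.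
  (If the condition on `R` is not satisfied, the property fails for all `m`.)

In the starting file and in `AllWeightsPrimeTwists` (helper150), `TwistsBySize` ONE twist `D m` is treated at a
time. New: all the twists by divisors at once, for a positive proportion by size with a fixed number of prime
factors, over every base. The method: joint law of the quadratic, quartic and mod 8 symbols of the prime
factors (`U687/NO`, `U687/J8`, `U687/PL`: bilinear sums over the hyperbola), the existence of one `m` in
the first point (helper239, helper33: `U239/CT`, `U974/BS`), invariance under tower primes (helper80).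
-/

set_option autoImplicit false

open scoped Classical

namespace Pool.Agent.Results.MP_7c08ba_nt.DivisorTwistsBySize

open Filter Topology
open Pool.Agent.Results.MP_787500_nt.AllWeightsMultiquadraticX49 (RankZeroShaTwo)
open Pool.Agent.Results.MP_7c08ba_nt.HeckeCharactersAllWeights (Bounded)

/-- squarefree, all prime factors `1 mod 8` and split in `ℚ(√-7)` or `5 mod 8` and inert in `ℚ(√-7)` -/
def Class (D : ℕ) : Prop := Squarefree D ∧ ∀ p ∈ D.primeFactors,
  (p % 8 = 1 ∧ (p % 7 = 1 ∨ p % 7 = 2 ∨ p % 7 = 4)) ∨
  (p % 8 = 5 ∧ (p % 7 = 3 ∨ p % 7 = 5 ∨ p % 7 = 6))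

/-- the `m ≤ X` of the class, prime to `R`, with exactly `K` prime factors -/
noncomputable def multipliers (K R X : ℕ) : Finset ℕ :=
  (Finset.Icc 1 X).filter fun m => Class m ∧ m.primeFactors.card = K ∧ Nat.Coprime m R

/-- the share of the `m` with the property `Q` in a set of numbers -/
noncomputable def share (N : Finset ℕ) (Q : ℕ → Prop) : ℝ := ((N.filter Q).card : ℝ) / (N.card : ℝ)

/-- the share of the `m` with `Q` has a limit, which is positive and of the form `j / 2 ^ N`, and it is a
lower bound for the lower density of the `m` with `B` -/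
def Law (K R : ℕ) (Q B : ℕ → Prop) : Prop :=
  ∃ j : ℕ, 0 < j ∧ Tendsto (fun X => share (multipliers K R X) Q) atTop
      (𝓝 ((j : ℝ) / 2 ^ (K * (R.primeFactors.card + 2) + K.choose 2))) ∧
    ∀ x < (j : ℝ) / 2 ^ (K * (R.primeFactors.card + 2) + K.choose 2), ∀ᶠ X in atTop,
      x < share (multipliers K R X) B

/-- the primes `q ≡ 5 mod 8` that are inert in `ℚ(√-7)` and squares modulo all the prime factors of `N`
that split in `ℚ(√-7)` -/
def TowerPrime (N q : ℕ) : Prop :=
  q.Prime ∧ q % 8 = 5 ∧ (q % 7 = 3 ∨ q % 7 = 5 ∨ q % 7 = 6) ∧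
    ∀ p : ℕ, p.Prime → p ∣ N → (p % 7 = 1 ∨ p % 7 = 2 ∨ p % 7 = 4) → IsSquare (q : ZMod p)

/-- squarefree, `1 mod 8`, and every prime factor divides `N` or is a tower prime of `N` -/
def Built (N M : ℕ) : Prop :=
  Squarefree M ∧ M % 8 = 1 ∧ ∀ p : ℕ, p.Prime → p ∣ M → p ∣ N ∨ TowerPrime N p

/-- **Theorem.** -/
theorem result (R : ℕ) (hR : Class R) (K : ℕ) (hK : 1 ≤ K) :
    (∀ᶠ X in atTop, (multipliers K R X).Nonempty) ∧
    (∀ N m : ℕ, Class N → m ∣ N → (∀ e, e ∣ N → m ∣ e → RankZeroShaTwo e) →
      ∀ M, Built N M → m ∣ M → RankZeroShaTwo M ∧ Bounded M) ∧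
    (∀ N : ℕ, Class N → {q : ℕ | TowerPrime N q}.Infinite) ∧
    (R.primeFactors.card + 2 ≤ K →
      Law K R (fun m => ∀ d, d ∣ R → RankZeroShaTwo (m * d))
        (fun m => ∀ M, Built (m * R) M → m ∣ M → Bounded M)) ∧
    ((∀ d, d ∣ R → RankZeroShaTwo d) →
      Law K R (fun m => ∀ d, d ∣ m * R → RankZeroShaTwo d)
        (fun m => ∀ M, Built (m * R) M → Bounded M)) := by
  have key : ∀ N m : ℕ, Class N → m ∣ N → (∀ e, e ∣ N → m ∣ e → RankZeroShaTwo e) →
      ∀ M, Built N M → m ∣ M → RankZeroShaTwo M ∧ Bounded M := by
    intro N m hN hm h M hM hmM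
    have h1 := Pool.Agent.U687.PL.Twr.built_rz hN hm h hM hmM
    exact ⟨h1, Pool.Agent.Results.MP_7c08ba_nt.HeckeCharactersAllWeights.result.1 M
      (Pool.Agent.U687.PL.Top.adm_of (Pool.Agent.U687.PL.Twr.built_ac hN hM) hM.2.1) h1⟩
  refine ⟨Pool.Agent.U687.PL.Top.nonempty hR hK, key, fun N hN =>
    Pool.Agent.U687.PL.Twr.tp_inf ((Pool.Agent.U687.PL.Top.class_iff N).1 hN), fun h => ?_,
    fun hg => ?_⟩
  · refine Pool.Agent.U687.PL.Top.law_of (Pool.Agent.U687.PL.Top.fixed hR h)
      fun X m hm hm2 M hM hmM => ?_
    obtain ⟨h1, -, h3⟩ := Pool.Agent.U687.PL.Top.mem_mult hm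
    exact (key _ m (Pool.Agent.U687.PL.Top.class_mul h1 hR h3) (Dvd.intro _ rfl)
      (Pool.Agent.U687.PL.Twr.cond_fixed h1.1.ne_zero hm2) M hM hmM).2
  · refine Pool.Agent.U687.PL.Top.law_of (Pool.Agent.U687.PL.Top.moving hR hK hg)
      fun X m hm hm2 M hM => ?_
    obtain ⟨h1, -, h3⟩ := Pool.Agent.U687.PL.Top.mem_mult hm
    exact (key _ 1 (Pool.Agent.U687.PL.Top.class_mul h1 hR h3) (one_dvd _)
      (fun e he _ => hm2 e he) M hM (one_dvd _)).2

end Pool.Agent.Results.MP_7c08ba_nt.DivisorTwistsBySize
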