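import Pool.Agent.U974.AW.Cfg8
import Pool.Agent.Results.MP_7c08ba_nt.HeckeCharactersAllWeights

/-!
# The Bloch–Kato Selmer groups of the conjugate self-dual Hecke characters of all infinity types attached to the
# twists of `X_0(49)` by the partial products of prime tuples, for a positive proportion of all tuples of shifts

`K = ℚ(√-7)`, `E_M` is the quadratic twist by `M` of `X_0(49)`, `ψ_M` its Hecke character over `K`. For `k > 0` the
Hecke characters `ψ_M^k ψ̄_M^(1-k)` and `ψ_M^(1-k) ψ̄_M^k`, normalized, are conjugate self-dual automorphic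
representations `π` of `GL_1` over `K` of motivic weight `-1`; their `2`-adic realizations are `ℚ_2(κ^k κ'^(1-k))`
and `ℚ_2(κ^(1-k) κ'^k)`, where `κ`, `κ'` are the characters by which `Gal(ℚ̄/K)` acts on the `2`-adic Tate module of
`E_M`. The root number is `(-1)^(k-1)` for the `M` considered here.

`T` is ANY finite set of primes which are `1 mod 8` and split or `5 mod 8` and inert in `K` (for instance the empty
set), `N` any number prime to `7`. There are a pair of primes `q`, `r` (`5 mod 8`, inert in `K`) and a bound `B` such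
that in EVERY set `W` of at least `δ x` integers of `[0, x]` at least the proportion `c(δ) > 0` of all the `x ^ m`
vectors `h_1 < ... < h_m` have their entries in `W` and satisfy: for EVERY graph `G` with the vertices `1, ..., m`
there are `{d, d'} = {1, q r}` such that for infinitely many `n` the numbers `p_i = n + h_i` are primes, `1` modulo
`56 N`, at most `B` primes lie at distance at most `Y` from `n` (for every `Y`), and for ALL `S ⊆ {1, ..., m}` and
ALL `U ⊆ T` with `∏ U ≡ 1 mod 8`: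

* for `M = d ∏ U ∏_{i ∈ S} p_i`, `E_M(ℚ)` is finite and `Ш(E_M/ℚ)` has no element of order two if and only if this
  is so for `E_{∏ U}` and the number of the rooted spanning forests of `G[S]` is odd; in this case, for ALL the
  weights `k > 0`, the dimensions of the Bloch–Kato Selmer groups of the two characters over `K` are at most the
  order of vanishing which the root number forces: they are `0` for `k` odd and at most `1` for `k` even;
* for `M = d' ∏ U ∏_{i ∈ S} p_i`, `S` not empty, `E_M(ℚ)` is infinite or `Ш(E_M/ℚ)` has an element of order two.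

For the graph without edges and `U = ∅`: for a positive proportion of all the `m`-tuples `h` there are infinitely many
prime tuples `(n + h_1, ..., n + h_m)` such that the Selmer groups are so small for the characters of all weights of
the twists by ALL the `2 ^ m` partial products (times `1` or times `q r`) at once.

Proof. The prime tuples are those of `U974/PP` (Maynard–Tao, Ramsey, Paley graphs). The quartic symbol of `-7` is
exchanged by the pair `q r` (`U974/AW/Pair`); the linear system of the 2-descent splits (`U974/TW/Fld1`,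
`U974/AW/Cfg8`). The passage to all the weights is the starting theorem `HeckeCharactersAllWeights`.
-/

set_option autoImplicit false

open scoped Classical

namespace Pool.Agent.Results.MP_7c08ba_nt.PrimeTupleCharacters

open Pool.Agent.Results.MP_787500_nt.AllWeightsMultiquadraticX49 (RankZeroShaTwo)
open Pool.Agent.Results.MP_7c08ba_nt.HeckeCharactersAllWeights (Bounded)

/-- the primes which are `1 mod 8` and split in `ℚ(√-7)`, or `5 mod 8` and inert -/
def InClass (p : ℕ) : Prop := p.Prime ∧ ((p % 8 = 1 ∧ (p % 7 = 1 ∨ p % 7 = 2 ∨ p % 7 = 4)) ∨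
  (p % 8 = 5 ∧ (p % 7 = 3 ∨ p % 7 = 5 ∨ p % 7 = 6)))

/-- the determinant of the matrix `1 + Laplacian` of the subgraph of `G` induced on `S` is odd -/
def OddForests {m : ℕ} (G : SimpleGraph (Fin m)) (S : Finset (Fin m)) : Prop :=
  ((1 : Matrix (S : Set (Fin m)) (S : Set (Fin m)) (ZMod 2)) +
    (G.induce (S : Set (Fin m))).lapMatrix (ZMod 2)).det ≠ 0

/-- the property of the tuple `h`: for every graph `G` there are `{d, d'} = {1, q r}` such that for infinitely many
`n` the numbers `n + h i` are primes, `1` modulo `56 N`, with at most `B` primes at distance at most `Y` from `n`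
(for every `Y`), and the conclusions hold for all the twists described above -/
def AllTwists (T : Finset ℕ) (N q r B : ℕ) {m : ℕ} (h : Fin m → ℕ) : Prop :=
  ∀ G : SimpleGraph (Fin m), ∃ d d' : ℕ, (d = 1 ∧ d' = q * r ∨ d = q * r ∧ d' = 1) ∧ ∀ Y : ℕ,
    {n : ℕ | (∀ i, (n + h i).Prime ∧ n + h i ≡ 1 [MOD 56 * N]) ∧
      {p : ℕ | p.Prime ∧ |(p : ℤ) - n| ≤ Y}.ncard ≤ B ∧
      ∀ U : Finset ℕ, U ⊆ T → (∏ q ∈ U, q) % 8 = 1 → ∀ S : Finset (Fin m),
        (RankZeroShaTwo ((∏ q ∈ U, q) * (d * ∏ i ∈ S, (n + h i))) ↔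
          RankZeroShaTwo (∏ q ∈ U, q) ∧ OddForests G S) ∧
        (RankZeroShaTwo (∏ q ∈ U, q) → OddForests G S →
          Bounded ((∏ q ∈ U, q) * (d * ∏ i ∈ S, (n + h i)))) ∧
        (S.Nonempty → ¬ RankZeroShaTwo ((∏ q ∈ U, q) * (d' * ∏ i ∈ S, (n + h i))))}.Infinite

section proof

open Pool.Agent.U974.TW

theorem odd_iff {m : ℕ} (G : SimpleGraph (Fin m)) (S : Finset (Fin m)) : Ker G 1 S ↔ OddForests G S :=
  ker_iff G S

theorem odd_bot {m : ℕ} (G : SimpleGraph (Fin m)) (hG : ∀ i j, ¬ G.Adj i j) (S : Finset (Fin m)) :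
    OddForests G S := by
  rw [← odd_iff]
  exact Match.ker fun i _ j _ k _ hij _ => absurd hij (hG i j)

theorem base_inert {U : Finset ℕ} (hU : ∀ q ∈ U, InClass q) (h5 : ∀ q ∈ U, q % 8 = 5)
    (hU8 : (∏ q ∈ U, q) % 8 = 1) : RankZeroShaTwo (∏ q ∈ U, q) := by
  refine (Pool.Agent.U974.AW.rz_gd (fun q hq => hU q hq) hU8).2 ?_
  intro x _ p hp hp1
  exfalso
  have h2 := h5 p hp
  have h3 := (hU p hp).2
  unfold Pool.Agent.R413.SQ.mk at hp1
  rw [if_neg (by omega)] at hp1
  omega

end proof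

/-- **The Bloch–Kato Selmer groups for all infinity types, in prime tuples.** -/
theorem result (m N : ℕ) (hN : 0 < N) (h7 : N.Coprime 7) (T : Finset ℕ) (hT : ∀ q ∈ T, InClass q) :
    (∀ (G : SimpleGraph (Fin m)), (∀ i j, ¬ G.Adj i j) → ∀ S, OddForests G S) ∧
    (∀ U : Finset ℕ, (∀ q ∈ U, InClass q) → (∀ q ∈ U, q % 8 = 5) → (∏ q ∈ U, q) % 8 = 1 →
      RankZeroShaTwo (∏ q ∈ U, q)) ∧
    ∃ q r B : ℕ, q.Prime ∧ q % 8 = 5 ∧ q % 7 = 3 ∧ r.Prime ∧ r % 8 = 5 ∧ r % 7 = 3 ∧
      ∀ δ : ℝ, 0 < δ → ∃ c : ℝ, 0 < c ∧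
      ∃ x₀ : ℕ, ∀ x : ℕ, x₀ ≤ x → ∀ W : Finset ℕ, (∀ w ∈ W, w ≤ x) → δ * x ≤ W.card →
        c * (x : ℝ) ^ m ≤ ({h : Fin m → ℕ | StrictMono h ∧ (∀ i, h i ∈ W) ∧
          AllTwists T N q r B h}.ncard : ℝ) := by
  refine ⟨odd_bot, fun U hU h5 h8 => base_inert hU h5 h8, ?_⟩
  obtain ⟨q, r, hq, hq1, hq2, hq3, hq4, hr, hr1, hr2, B, hB⟩ := Pool.Agent.U974.AW.rel8 m N hN h7 T hT
  refine ⟨q, r, B, hq, hq1, hq2, hr, hr1, hr2, fun δ hδ => ?_⟩
  obtain ⟨c, hc, x₀, hx⟩ := hB δ hδ
  refine ⟨c, hc, x₀, fun x hxx W hW hWc => (hx x hxx W hW hWc).trans ?_⟩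
  have hfin : {h : Fin m → ℕ | StrictMono h ∧ (∀ i, h i ∈ W) ∧ AllTwists T N q r B h}.Finite := by
    refine (Fintype.piFinset (fun _ : Fin m => W)).finite_toSet.subset ?_
    rintro h ⟨-, h2, -⟩
    rw [Finset.mem_coe, Fintype.mem_piFinset]
    exact h2
  have hsub : {h : Fin m → ℕ | StrictMono h ∧ (∀ i, h i ∈ W) ∧
      Pool.Agent.U974.AW.AllCfg8 N B T q r h} ⊆
      {h : Fin m → ℕ | StrictMono h ∧ (∀ i, h i ∈ W) ∧ AllTwists T N q r B h} := by
    rintro h ⟨g1, g2, g3⟩
    refine ⟨g1, g2, fun G => ?_⟩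
    obtain ⟨c, hc⟩ := g3 G
    obtain ⟨β, hβ1, hβ2⟩ := Pool.Agent.U974.TW.exists_flip c
    refine ⟨if β then q * r else 1, if (!β) then q * r else 1, ?_, fun Y => (hc Y).mono ?_⟩
    · cases β
      · exact Or.inl ⟨rfl, rfl⟩
      · exact Or.inr ⟨rfl, rfl⟩
    · rintro n ⟨k1, k2, k3⟩
      have h8 : Pool.Agent.U974.AW.C8 G (fun i => n + h i) c T q r :=
        ⟨k1, fun i => (k2 i).of_dvd (Nat.dvd_mul_right _ _), hT, hq, hq1, hq2, hq3, hq4, hr, hr1, hr2⟩
      refine ⟨fun i => ⟨k1.prime i, k2 i⟩, k3, fun U hU hU8 S => ?_⟩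
      have e1 := h8.rz hU hU8 β S
      rw [hβ1, odd_iff] at e1
      have e2 := h8.rz hU hU8 (!β) S
      rw [hβ2] at e2
      refine ⟨e1, fun a1 a2 => ?_, fun hS a => Pool.Agent.U974.TW.ker_zero G hS (e2.1 a).2⟩
      exact Pool.Agent.Results.MP_7c08ba_nt.HeckeCharactersAllWeights.result.1 _ (h8.adm hU hU8 β S)
        (e1.2 ⟨a1, a2⟩)
  exact_mod_cast Set.ncard_le_ncard hsub hfin

end Pool.Agent.Results.MP_7c08ba_nt.PrimeTupleCharacters
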