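import Pool.Agent.U687.J8.Main8
import Pool.Agent.Results.MP_7c08ba_nt.HeckeCharactersAllWeights

/-!
# The Bloch–Kato Selmer groups of all weights of the twists, by size, of EVERY member of the class

`K = ℚ(√-7)`. Let `E_M` be the quadratic twist by `M` of `X_0(49)`, an elliptic curve over `ℚ` with complex
multiplication by the integers of `K`, and `ψ_M` its Hecke character over `K`. For `k > 0` the Hecke
characters `ψ_M^k ψ̄_M^(1-k)` and `ψ_M^(1-k) ψ̄_M^k`, normalized, are the two conjugate automorphic
representations `π` of `GL_1` over `K` with `π^∨ = π^c |·|^(-1)` whose `L`-function is the one of the newform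
of weight `2k` of `ψ_M^(2k-1)`; `ℚ_2(κ^k κ'^(1-k))` and `ℚ_2(κ^(1-k) κ'^k)` are their `2`-adic realizations,
`κ`, `κ'` the characters of `Gal(ℚ̄/K)` on the `2`-adic Tate module of `E_M`. `Bounded M` (from the starting
file `HeckeCharactersAllWeights`) says that for ALL `k > 0` the dimension of the Bloch–Kato Selmer group of
`π` is at most the order of vanishing forced by the root number, `0` for `k` odd and `1` for `k` even; it
holds if `E_M(ℚ)` is finite and `Ш(E_M/ℚ)` has no element of order two (`RankZeroShaTwo M`).

Here `D` is ANY product of different primes which are `1 mod 8` and split in `K` or `5 mod 8` and inert in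
`K`, a fixed number; nothing is assumed on `E_D`. It is twisted by ALL the numbers `m ≤ X` of the same kind,
prime to `D`, with exactly `K` prime factors and `D m ≡ 1 mod 8`, in their natural order.

* Among the `m` with exactly `b` split prime factors the proportion with `RankZeroShaTwo (D m)` tends to
  `prob K b A`, and the lower density of the `m` with `Bounded (D m)` is at least `prob K b A`. Here
  `prob K b A` is the probability of the state zero, after `b` steps, of the Markov chain on `0, 1, 2, …` with
  the transitions `r → r - 1` with the probability `1 - 2^{-r}`, `r → r` and `r → r + 1` with `2^{-r-1}`,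
  started with the law of the corank of `A + diag v` for random `v`; for `b = K` it is the same after
  `K - 1` steps from the law of the corank of `A + diag v` bordered by `v` and a random corner. `A` is the
  matrix over the field with two elements of the quadratic symbols between the split prime factors of `D`
  and of the quartic symbols of `-7`.
* Among all the `m` the proportion with `RankZeroShaTwo (D m)` tends to the binomial mean `total K D A` of
  these numbers, the lower density of the `m` with `Bounded (D m)` is at least this, and it tends to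
  `∏ (1 - 2^{-(2i+1)}) = 0.4194…` for `K → ∞`, for EVERY `D`, with an explicit exponential rate.

In the starting file the mean is over all the members `M ≤ X` of the class (nothing about the twists of a
given one); in `AllWeightsPrimeTwists` (helper150) there are iterated limits over successive primes. The
method here: expansion in signs of symbols, a bilinear estimate for the Jacobi symbol over the hyperbola
`p q ≤ Z`, means over the primes with prescribed symbols and residue modulo 8, and the chain (`U687/NO`,
`U687/J8`, `U687/Q2`).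
-/

set_option autoImplicit false

open scoped Classical

namespace Pool.Agent.Results.MP_7c08ba_nt.TwistsBySize

open Filter Matrix Topology
open Pool.Agent.Results.MP_787500_nt.AllWeightsMultiquadraticX49 (RankZeroShaTwo)
open Pool.Agent.Results.MP_7c08ba_nt.HeckeCharactersAllWeights (Bounded)

/-- squarefree, all prime factors `1 mod 8` and split in `ℚ(√-7)` or `5 mod 8` and inert in `ℚ(√-7)` -/
def Class (D : ℕ) : Prop := Squarefree D ∧ ∀ p ∈ D.primeFactors,
  (p % 8 = 1 ∧ (p % 7 = 1 ∨ p % 7 = 2 ∨ p % 7 = 4)) ∨
  (p % 8 = 5 ∧ (p % 7 = 3 ∨ p % 7 = 5 ∨ p % 7 = 6))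

/-- the split prime factors of a member of the class -/
noncomputable def splitPrimes (D : ℕ) : Finset ℕ := D.primeFactors.filter fun p => p % 8 = 1

/-- the `m ≤ X` of the class, prime to `D`, with exactly `K` prime factors, and `D m ≡ 1 mod 8` -/
noncomputable def multipliers (K D X : ℕ) : Finset ℕ :=
  (Finset.Icc 1 X).filter fun m =>
    Class m ∧ m.primeFactors.card = K ∧ Nat.Coprime m D ∧ (D * m) % 8 = 1

/-- those with exactly `b` split prime factors -/
noncomputable def multipliersSplit (K b D X : ℕ) : Finset ℕ :=
  (multipliers K D X).filter fun m => (splitPrimes m).card = b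

/-- the share of the `m` with the property `Q` in a set of numbers -/
noncomputable def share (N : Finset ℕ) (Q : ℕ → Prop) : ℝ := ((N.filter Q).card : ℝ) / (N.card : ℝ)

/-- the possible numbers of split prime factors of the multipliers -/
def kinds (K D : ℕ) : Finset ℕ := (Finset.range (K + 1)).filter fun b => (D * 5 ^ (K - b)) % 8 = 1

/-- `P` enumerates the split prime factors of `D` -/
def IsEnumeration (D n : ℕ) (P : Fin n → ℕ) : Prop :=
  Function.Injective P ∧ splitPrimes D = Finset.univ.image P

/-- `1` if `m` is not a square modulo `p`, and `0` if it is -/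
noncomputable def nonsq (p m : ℕ) : ZMod 2 := if IsSquare (m : ZMod p) then 0 else 1

/-- `1` if `-7` is not a fourth power modulo `p`, and `0` if it is -/
noncomputable def nonfourth (p : ℕ) : ZMod 2 := if ∃ y : ZMod p, y ^ 4 = -7 then 0 else 1

/-- the matrix of the symbols -/
noncomputable def symbols (D : ℕ) {n : ℕ} (P : Fin n → ℕ) : Matrix (Fin n) (Fin n) (ZMod 2) :=
  Matrix.of fun i j =>
    if i = j then nonfourth (P i) + ∑ l ∈ D.primeFactors.erase (P i), nonsq (P i) l
    else nonsq (P i) (P j)

/-- the matrix `M` with the border `b` and the corner `d` -/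
def bordered {n : ℕ} (M : Matrix (Fin n) (Fin n) (ZMod 2)) (d : ZMod 2) (b : Fin n → ZMod 2) :
    Matrix (Fin (n + 1)) (Fin (n + 1)) (ZMod 2) :=
  Matrix.of (Fin.cons (Fin.cons d b) fun i => Fin.cons (b i) (M i))

/-- the share of the `v` for which the corank of `A + diag v` is `r` -/
noncomputable def diagonalLaw {n : ℕ} (A : Matrix (Fin n) (Fin n) (ZMod 2)) (r : ℕ) : ℝ :=
  (Nat.card {v : Fin n → ZMod 2 // (A + diagonal v).rank + r = n} : ℝ) / 2 ^ n

/-- the share of the pairs `(v, d)` for which the corank of `A + diag v`, with the border `v` and the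
corner `d`, is `r` -/
noncomputable def borderLaw {n : ℕ} (A : Matrix (Fin n) (Fin n) (ZMod 2)) (r : ℕ) : ℝ :=
  (Nat.card {x : (Fin n → ZMod 2) × ZMod 2 //
    (bordered (A + diagonal x.1) x.2 x.1).rank + r = n + 1} : ℝ) / 2 ^ (n + 1)

/-- one step of the Markov chain -/
noncomputable def markov (μ : ℕ → ℝ) (r : ℕ) : ℝ :=
  (1 - (1 / 2) ^ (r + 1)) * μ (r + 1) + (1 / 2) ^ (r + 1) * μ r +
    (if r = 0 then 0 else (1 / 2) ^ r * μ (r - 1))

/-- the probability of zero after `K` primes, `b` of them split -/
noncomputable def prob (K b : ℕ) {n : ℕ} (A : Matrix (Fin n) (Fin n) (ZMod 2)) : ℝ :=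
  if b = K then markov^[K - 1] (borderLaw A) 0 else markov^[b] (diagonalLaw A) 0

/-- the probability of zero for all the multipliers with `K` prime factors -/
noncomputable def total (K D : ℕ) {n : ℕ} (A : Matrix (Fin n) (Fin n) (ZMod 2)) : ℝ :=
  ∑ b ∈ kinds K D, (K.choose b : ℝ) / 2 ^ (K - 1) * prob K b A

/-- `∏_{i ≥ 0} (1 - 2^{-(2i+1)}) = 0.4194...` -/
noncomputable def limit : ℝ := ∏' i : ℕ, (1 - (1 / 2 : ℝ) ^ (2 * i + 1))

/-- **Theorem.** -/
theorem result :
    (∀ D : ℕ, Class D → ∃ P, IsEnumeration D (splitPrimes D).card P) ∧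
    (∀ (D n K : ℕ) (P : Fin n → ℕ), Class D → IsEnumeration D n P → 1 ≤ K →
      (∀ᶠ X in atTop, (multipliers K D X).Nonempty) ∧
      (∀ X, ∀ m ∈ multipliers K D X, RankZeroShaTwo (D * m) → Bounded (D * m)) ∧
      (∀ b ∈ kinds K D, (∀ᶠ X in atTop, (multipliersSplit K b D X).Nonempty) ∧
        Tendsto (fun X => share (multipliersSplit K b D X) fun m => RankZeroShaTwo (D * m)) atTop
          (𝓝 (prob K b (symbols D P))) ∧
        (∀ x < prob K b (symbols D P), ∀ᶠ X in atTop,
          x < share (multipliersSplit K b D X) fun m => Bounded (D * m)) ∧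
        (1 / 2 : ℝ) ^ (n + b + 1) ≤ prob K b (symbols D P) ∧
        |prob K b (symbols D P) - limit| ≤
          (∏ i ∈ Finset.range n, ((2 : ℝ) ^ (i + 1) - 1)) * (1 / 2) ^ min b (K - 1)) ∧
      Tendsto (fun X => share (multipliers K D X) fun m => RankZeroShaTwo (D * m)) atTop
        (𝓝 (total K D (symbols D P))) ∧
      (∀ x < total K D (symbols D P), ∀ᶠ X in atTop,
        x < share (multipliers K D X) fun m => Bounded (D * m)) ∧
      (1 / 2 : ℝ) ^ (n + K + 1) ≤ total K D (symbols D P) ∧
      |total K D (symbols D P) - limit| ≤
        4 * (∏ i ∈ Finset.range n, ((2 : ℝ) ^ (i + 1) - 1)) * (3 / 4) ^ K) ∧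
    (∀ (D n : ℕ) (P : Fin n → ℕ), Class D → IsEnumeration D n P →
      Tendsto (fun K => total K D (symbols D P)) atTop (𝓝 limit)) ∧
    (0.4194 : ℝ) < limit ∧ limit < 0.4195 :=
  Pool.Agent.U687.J8.Main.main Bounded
    Pool.Agent.Results.MP_7c08ba_nt.HeckeCharactersAllWeights.result.1

end Pool.Agent.Results.MP_7c08ba_nt.TwistsBySize
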